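import Pool.Agent.W312.TP.Stm
import Pool.Agent.H673R2.TsTree

set_option autoImplicit false

/-!
# Adding a vertex of degree two
-/

namespace Pool.Agent.W368.TP.DOWN

open Pool.Agent.W312.TP Pool.Agent.H673R2.Ts

theorem nearer {V : Type*} {T : SimpleGraph V} (hT : T.IsTree) (A x : V) (hx : x ≠ A) :
    ∃ y, T.Adj x y ∧ T.dist A x = T.dist A y + 1 := by
  obtain ⟨p, hp⟩ := hT.connected.exists_walk_length_eq_dist x A
  cases p with
  | nil => exact absurd rfl hx
  | cons h q =>
    refine ⟨_, h, ?_⟩
    have h2 := SimpleGraph.dist_le q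
    rw [SimpleGraph.Walk.length_cons] at hp
    rcases hT.dist_eq_dist_add_one_of_adj A h with h1 | h1
    · exact h1
    · exfalso
      rw [SimpleGraph.dist_comm] at hp h2
      omega

theorem proof_DOWN : Pool.Agent.W312.TP.DOWN := by
  classical
  intro n E C a b c ha hb hab hc hE hC ⟨T, hT, hTE, hTC⟩
  let A : Fin n := ⟨a, ha⟩
  let B : Fin n := ⟨b, hb⟩
  have hne := fun (x : Fin n) (hx : x ≠ A) => nearer hT A x hx
  choose nx hnx1 hnx2 using hne
  let par : Fin (n + 1) → Fin (n + 1) := fun x => if h : (x : ℕ) < n then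
    (if h' : (⟨x, h⟩ : Fin n) = A then A.castSucc else (nx _ h').castSucc) else A.castSucc
  let lev : Fin (n + 1) → ℕ := fun x => if h : (x : ℕ) < n then T.dist A ⟨x, h⟩ else 1
  have par1 : ∀ (x : Fin n) (hx : x ≠ A), par x.castSucc = (nx x hx).castSucc := by
    intro x hx
    have h1 : ((x.castSucc : Fin (n + 1)) : ℕ) < n := x.2
    simp only [par]
    rw [dif_pos h1]
    exact dif_neg (c := x = A) hx
  have par2 : par (Fin.last n) = A.castSucc := by
    simp [par]
  have lev1 : ∀ x : Fin n, lev x.castSucc = T.dist A x := by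
    intro x
    simp [lev]
  have lev2 : lev (Fin.last n) = 1 := by simp [lev]
  have hlev : ∀ x, x ≠ A.castSucc → lev (par x) < lev x := by
    intro x
    refine Fin.lastCases ?_ (fun x => ?_) x
    · intro _
      rw [par2, lev1, lev2, SimpleGraph.dist_self]
      exact one_pos
    · intro hx
      have hx' : x ≠ A := fun h => hx (by rw [h])
      rw [par1 x hx', lev1, lev1, hnx2 x hx']
      exact Nat.lt_succ_self _
  have hT' := isTree_of_parent A.castSucc par lev hlev
  set T' := SimpleGraph.fromRel fun x y : Fin (n + 1) => x ≠ A.castSucc ∧ y = par x with hTdef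
  have hadj : ∀ x, x ≠ A.castSucc → T'.Adj x (par x) := by
    intro x hx
    rw [hTdef, SimpleGraph.fromRel_adj]
    refine ⟨fun h => ?_, Or.inl ⟨hx, rfl⟩⟩
    have := hlev x hx
    rw [← h] at this
    exact lt_irrefl _ this
  have hmap : ∀ x y : Fin n, T.Adj x y → T'.Adj x.castSucc y.castSucc := by
    have key : ∀ x y : Fin n, T.Adj x y → T.dist A x = T.dist A y + 1 →
        T'.Adj x.castSucc y.castSucc := by
      intro x y hxy h
      have hx : x ≠ A := by
        rintro rfl
        rw [SimpleGraph.dist_self] at h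
        omega
      have h1 : nx x hx = y := by
        by_contra hcon
        have h2 := dist_next hT (x := A) (hnx1 x hx).symm hxy hcon (hnx2 x hx)
        omega
      have h3 := hadj x.castSucc (fun h => hx (Fin.castSucc_injective _ h))
      rwa [par1 x hx, h1] at h3
    intro x y hxy
    rcases hT.dist_eq_dist_add_one_of_adj A hxy with h | h
    · exact key x y hxy h
    · exact (key y x hxy.symm h).symm
  have hnew : T'.Adj A.castSucc (Fin.last n) := by
    have h := hadj (Fin.last n) (fun h => by
      have := congrArg Fin.val h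
      simp at this
      omega)
    rw [par2] at h
    exact h.symm
  let f : T →g T' := ⟨Fin.castSucc, fun {x y} h => hmap x y h⟩
  have hdist : ∀ x y : Fin n, T'.dist x.castSucc y.castSucc ≤ T.dist x y := by
    intro x y
    obtain ⟨p, hp⟩ := hT.connected.exists_walk_length_eq_dist x y
    have h1 := SimpleGraph.dist_le (p.map f)
    rw [SimpleGraph.Walk.length_map, hp] at h1
    exact h1
  have hpE : ∀ x, x ≠ A.castSucc → (((x : ℕ), (par x : ℕ)) ∈ {z | z ∈ E ∨ z = (a, n) ∨ z = (b, n)} ∨
      ((par x : ℕ), (x : ℕ)) ∈ {z | z ∈ E ∨ z = (a, n) ∨ z = (b, n)}) := by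
    intro x
    refine Fin.lastCases ?_ (fun x => ?_) x
    · intro _
      right
      rw [par2]
      right; left
      rfl
    · intro hx
      have hx' : x ≠ A := fun h => hx (by rw [h])
      rw [par1 x hx']
      rcases hTE _ _ (hnx1 x hx') with h | h
      · exact Or.inl (Or.inl h)
      · exact Or.inr (Or.inl h)
  refine ⟨T', hT', ?_, ?_⟩
  · intro x y hxy
    rw [hTdef, SimpleGraph.fromRel_adj] at hxy
    rcases hxy with ⟨-, ⟨h1, rfl⟩ | ⟨h1, rfl⟩⟩
    · exact hpE x h1
    · exact (hpE y h1).symm
  · intro x y c' h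
    rcases h with h | h | h
    · have h1 := hC _ h
      have h2 := hTC ⟨x, h1.1⟩ ⟨y, h1.2⟩ c' (Or.inl h)
      exact le_trans (hdist ⟨x, h1.1⟩ ⟨y, h1.2⟩) h2
    · simp only [Prod.mk.injEq] at h
      have hx : x = A.castSucc := Fin.ext h.1
      have hy : y = Fin.last n := Fin.ext h.2.1
      rw [hx, hy, SimpleGraph.dist_eq_one_iff_adj.2 hnew, h.2.2]
      omega
    · simp only [Prod.mk.injEq] at h
      have hx : x = B.castSucc := Fin.ext h.1
      have hy : y = Fin.last n := Fin.ext h.2.1
      have h1 := hT'.connected.dist_triangle (u := B.castSucc) (v := A.castSucc) (w := Fin.last n)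
      have h4 : T'.dist A.castSucc (Fin.last n) = 1 := SimpleGraph.dist_eq_one_iff_adj.2 hnew
      have h5 : T'.dist B.castSucc A.castSucc = T'.dist A.castSucc B.castSucc :=
        SimpleGraph.dist_comm
      have h2 := hdist A B
      have h3 := hTC A B (c - 1) (Or.inr rfl)
      rw [hx, hy, h.2.2]
      omega

end Pool.Agent.W368.TP.DOWN
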